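import Pool.Agent.H317.GR.StmB

/-!
# Project GR, piece RKZ: integral matrices of rank at most one
-/

set_option autoImplicit false

namespace Pool.Agent.H364.GR

open Matrix Module Pool.Agent.H317.GR

theorem rkz_minor {K : Type} [Field K] [CharZero K] {n : ℕ} {A : Matrix (Fin n) (Fin n) ℤ}
    {v φ : Fin n → K} (h : A.map (Int.castRingHom K) = vecMulVec v φ) (i j k l : Fin n) :
    A i j * A k l = A i l * A k j := by
  have e : ∀ a b : Fin n, ((A a b : ℤ) : K) = v a * φ b := fun a b => by
    have h1 := congrFun (congrFun h a) b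
    rw [Matrix.map_apply, vecMulVec_apply] at h1
    exact h1
  have h2 : ((A i j * A k l : ℤ) : K) = ((A i l * A k j : ℤ) : K) := by
    rw [Int.cast_mul, Int.cast_mul, e, e, e, e]
    ring
  exact Int.cast_injective h2

theorem rkz : S_RKZ := by
  intro K _ _ n A v φ h
  by_cases hA : A = 0
  · refine ⟨0, 0, ?_⟩
    rw [hA]
    ext i j
    rw [vecMulVec_apply, Pi.zero_apply, zero_mul]
    rfl
  · obtain ⟨i, j₀, hij⟩ : ∃ i j, A i j ≠ 0 := by
      by_contra hno
      push Not at hno
      exact hA (by ext i j; exact hno i j)
    obtain ⟨d, hd⟩ := (IsPrincipalIdealRing.principal (Ideal.span (Set.range (A i)))).principal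
    have hd' : Ideal.span (Set.range (A i)) = Ideal.span {d} := hd
    have hdm : d ∈ Ideal.span (Set.range (A i)) := by
      rw [hd']
      exact Ideal.mem_span_singleton_self d
    obtain ⟨c, hc⟩ := Ideal.mem_span_range_iff_exists_fun.1 hdm
    have hb : ∀ j, ∃ b : ℤ, A i j = d * b := fun j => by
      have h1 : A i j ∈ Ideal.span {d} := by
        rw [← hd']
        exact Ideal.subset_span ⟨j, rfl⟩
      exact Ideal.mem_span_singleton.1 h1
    choose b hb using hb
    have hd0 : d ≠ 0 := by
      rintro rfl
      exact hij (by rw [hb j₀, zero_mul])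
    have h1 : ∑ j, c j * b j = 1 := by
      have h2 : d * ∑ j, c j * b j = d * 1 := by
        rw [Finset.mul_sum, mul_one]
        calc ∑ j, d * (c j * b j) = ∑ j, c j * A i j :=
              Finset.sum_congr rfl fun j _ => by rw [hb j]; ring
          _ = d := hc
      exact mul_left_cancel₀ hd0 h2
    refine ⟨fun k => ∑ j, c j * A k j, b, ?_⟩
    ext k l
    rw [vecMulVec_apply]
    have h3 : ∀ j, b j * A k l = b l * A k j := fun j => by
      have h4 := rkz_minor h i j k l
      rw [hb j, hb l] at h4
      have h5 : d * (b j * A k l) = d * (b l * A k j) := by linarith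
      exact mul_left_cancel₀ hd0 h5
    calc A k l = (∑ j, c j * b j) * A k l := by rw [h1, one_mul]
      _ = ∑ j, c j * (b j * A k l) := by
          rw [Finset.sum_mul]
          exact Finset.sum_congr rfl fun j _ => by ring
      _ = ∑ j, c j * (b l * A k j) := Finset.sum_congr rfl fun j _ => by rw [h3 j]
      _ = (∑ j, c j * A k j) * b l := by
          rw [Finset.sum_mul]
          exact Finset.sum_congr rfl fun j _ => by ring

end Pool.Agent.H364.GR
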